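import Pool.Agent.H96.MC.Targets

/-!
Boxes are connected (MP_5da387_pr).
-/

namespace Pool.Agent.H48.MC

open Classical Pool.Agent.H96.MC

noncomputable section

lemma box_aux {d : ℕ} (a b : Cell d) : ∀ (n : ℕ) (x y : Cell d),
    x ∈ Fintype.piFinset (fun i => Finset.Icc (a i) (b i)) →
    y ∈ Fintype.piFinset (fun i => Finset.Icc (a i) (b i)) →
    ∑ i, (y i - x i).natAbs = n →
    Relation.ReflTransGen (fun u v => u ∈ Fintype.piFinset (fun i => Finset.Icc (a i) (b i)) ∧
      v ∈ Fintype.piFinset (fun i => Finset.Icc (a i) (b i)) ∧ Adj u v) x y := by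
  intro n
  induction n with
  | zero =>
    intro x y hx hy h
    have : x = y := by
      funext i
      have h1 := (Finset.sum_eq_zero_iff.1 h) i (Finset.mem_univ i)
      omega
    rw [this]
  | succ n ih =>
    intro x y hx hy h
    have hne : ∃ i, (y i - x i).natAbs ≠ 0 := by
      by_contra hc
      push Not at hc
      have : ∑ i, (y i - x i).natAbs = 0 := Finset.sum_eq_zero (fun i _ => hc i)
      omega
    obtain ⟨i, hi⟩ := hne
    let x' : Cell d := Function.update x i (x i + Int.sign (y i - x i))
    have hx'i : x' i = x i + Int.sign (y i - x i) := Function.update_self _ _ _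
    have hx'j : ∀ j, j ≠ i → x' j = x j := fun j hj => Function.update_of_ne hj _ _
    have hs : Int.sign (y i - x i) = 1 ∧ x i < y i ∨ Int.sign (y i - x i) = -1 ∧ y i < x i := by
      rcases lt_trichotomy (y i - x i) 0 with h0 | h0 | h0
      · right
        exact ⟨Int.sign_eq_neg_one_of_neg h0, by omega⟩
      · exfalso
        apply hi
        rw [h0]
        rfl
      · left
        exact ⟨Int.sign_eq_one_of_pos h0, by omega⟩
    have hmem : x' ∈ Fintype.piFinset (fun i => Finset.Icc (a i) (b i)) := by
      rw [Fintype.mem_piFinset] at hx hy ⊢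
      intro j
      by_cases hj : j = i
      · subst hj
        have h1 := Finset.mem_Icc.1 (hx j)
        have h2 := Finset.mem_Icc.1 (hy j)
        rw [hx'i, Finset.mem_Icc]
        rcases hs with ⟨h3, h4⟩ | ⟨h3, h4⟩ <;> rw [h3] <;> constructor <;> omega
      · rw [hx'j j hj]
        exact hx j
    have hadj : Adj x x' := by
      unfold Adj
      rw [Finset.sum_eq_single i]
      · rw [hx'i]
        rcases hs with ⟨h3, h4⟩ | ⟨h3, h4⟩ <;> rw [h3] <;> omega
      · intro j _ hj
        rw [hx'j j hj]
        simp
      · intro hc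
        exact absurd (Finset.mem_univ i) hc
    have hsum : ∑ j, (y j - x' j).natAbs = n := by
      have e1 : ∑ j, (y j - x j).natAbs =
          (y i - x i).natAbs + ∑ j ∈ Finset.univ.erase i, (y j - x j).natAbs :=
        (Finset.add_sum_erase _ _ (Finset.mem_univ i)).symm
      have e2 : ∑ j, (y j - x' j).natAbs =
          (y i - x' i).natAbs + ∑ j ∈ Finset.univ.erase i, (y j - x' j).natAbs :=
        (Finset.add_sum_erase _ _ (Finset.mem_univ i)).symm
      have e3 : ∑ j ∈ Finset.univ.erase i, (y j - x' j).natAbs =
          ∑ j ∈ Finset.univ.erase i, (y j - x j).natAbs := by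
        apply Finset.sum_congr rfl
        intro j hj
        rw [hx'j j (Finset.ne_of_mem_erase hj)]
      have e4 : (y i - x' i).natAbs + 1 = (y i - x i).natAbs := by
        rw [hx'i]
        rcases hs with ⟨h3, h4⟩ | ⟨h3, h4⟩ <;> rw [h3] <;> omega
      omega
    exact Relation.ReflTransGen.head ⟨hx, hmem, hadj⟩ (ih x' y hmem hy hsum)

theorem box : T_BOX := by
  intro d a b x hx y hy
  exact box_aux a b _ x y hx hy rfl

end

end Pool.Agent.H48.MC
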