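import Pool.Agent.H96.MC.Targets

/-!
Patterns of small diameter (MP_5da387_pr).
-/

namespace Pool.Agent.H48.MC

open Classical Pool.Agent.H96.MC

noncomputable section

/-- the pattern with counts `x` in the cell 0 -/
def pat0 (d : ℕ) {q : ℕ} (x : Fin q → ℕ) : Pat d q :=
  ∑ i, Finsupp.single ((0 : Cell d), i) (x i)

lemma pat0_add {d q : ℕ} (x y : Fin q → ℕ) : pat0 d (x + y) = pat0 d x + pat0 d y := by
  unfold pat0
  rw [← Finset.sum_add_distrib]
  exact Finset.sum_congr rfl (fun i _ => by rw [Pi.add_apply, Finsupp.single_add])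

lemma pat0_zero {d q : ℕ} : pat0 d (0 : Fin q → ℕ) = 0 := by
  unfold pat0
  exact Finset.sum_eq_zero (fun i _ => by rw [Pi.zero_apply, Finsupp.single_zero])

lemma tot_pat0 {d q : ℕ} (x : Fin q → ℕ) : tot (pat0 d x) = x := by
  have h : ∀ s : Finset (Fin q), tot (∑ i ∈ s, Finsupp.single ((0 : Cell d), i) (x i)) =
      ∑ i ∈ s, Pi.single i (x i) := by
    intro s
    induction s using Finset.induction with
    | empty => simp [tot_zero]
    | insert a s ha ih => rw [Finset.sum_insert ha, Finset.sum_insert ha, tot_add, tot_single, ih]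
  unfold pat0
  rw [h]
  exact Finset.univ_sum_single x

lemma pat0_support {d q : ℕ} (x : Fin q → ℕ) {z : CC d q} (hz : z ∈ (pat0 d x).support) :
    z.1 = 0 := by
  unfold pat0 at hz
  have h1 := Finsupp.support_finsetSum hz
  rw [Finset.mem_biUnion] at h1
  obtain ⟨i, -, hi⟩ := h1
  have h2 := Finsupp.support_single_subset hi
  rw [Finset.mem_singleton] at h2
  rw [h2]

lemma push_zero_eq {d q : ℕ} (u : Pat d q) : push (fun _ => 0) u = pat0 d (tot u) := by
  induction u using Finsupp.induction_linear with
  | zero => rw [push_zero, tot_zero, pat0_zero]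
  | add f g hf hg => rw [push_add, tot_add, pat0_add, hf, hg]
  | single a b =>
    rw [push_single, tot_single]
    unfold pat0
    rw [Finset.sum_eq_single a.2]
    · rw [Pi.single_eq_same]
    · intro i _ hi
      rw [Pi.single_eq_of_ne hi, Finsupp.single_zero]
    · intro h
      exact absurd (Finset.mem_univ _) h

lemma pat0_mem {d q : ℕ} (V : Finset (Fin q → ℕ)) {x : Fin q → ℕ}
    (hx : x ∈ AddSubmonoid.closure (V : Set (Fin q → ℕ))) : pat0 d x ∈ Tl (d := d) V 0 := by
  induction hx using AddSubmonoid.closure_induction with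
  | mem v hv =>
    by_cases h0 : pat0 d v = 0
    · rw [h0]
      exact AddSubmonoid.zero_mem _
    · apply AddSubmonoid.subset_closure
      refine ⟨h0, ?_, ?_⟩
      · rw [tot_pat0]
        exact hv
      · intro a ha b hb
        rw [pat0_support v ha, pat0_support v hb, sub_zero, nrm_zero]
  | zero =>
    rw [pat0_zero]
    exact AddSubmonoid.zero_mem _
  | add a b _ _ ha hb =>
    rw [pat0_add]
    exact AddSubmonoid.add_mem _ ha hb

theorem small (h : T_LIFT) : T_SMALL := by
  intro d q V r u hu hd
  have h1 := h d q V 0 r (CC d q) Prod.fst (fun _ => 0) Prod.snd u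
    (fun s hs t ht _ => hd s hs t ht) ?_
  · have e : (fun t : CC d q => (t.1, t.2)) = id := rfl
    rw [e, Finsupp.mapDomain_id] at h1
    exact h1
  · have e : Finsupp.mapDomain (fun t : CC d q => ((0 : Cell d), t.2)) u = push (fun _ => 0) u := rfl
    rw [e, push_zero_eq]
    exact pat0_mem V hu

end

end Pool.Agent.H48.MC
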