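import Pool.Agent.H96.MC.Targets

/-!
Bad windows exist (MP_5da387_pr).
-/

namespace Pool.Agent.H48.MC

open Classical Pool.Agent.H96.MC

noncomputable section

theorem zne : T_ZNE := by
  intro d q D N s T
  obtain ⟨i0, hi0⟩ := D.unit
  refine ⟨fun x => if x.1 = ((0 : Cell d), i0) then 1 else 0, 0, ?_⟩
  rintro ⟨μ, y, hF, hy, hsum, -⟩
  have hwin : ((0 : Cell d), i0) ∈ win d q (T + N) := by
    rw [win, Finset.mem_product]
    refine ⟨?_, Finset.mem_univ _⟩
    rw [mem_cube, sub_zero, sn_zero]
    exact Nat.zero_le _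
  have hval : ∀ x : CC d q, ext (W := win d q (T + N))
      (fun x => if x.1 = ((0 : Cell d), i0) then 1 else 0) x =
      if x = ((0 : Cell d), i0) then 1 else 0 := by
    intro x
    unfold ext
    by_cases hx : x ∈ win d q (T + N)
    · rw [dif_pos hx]
    · rw [dif_neg hx]
      rw [if_neg]
      intro h
      exact hx (h ▸ hwin)
  have hrst : rst (ext (W := win d q (T + N))
      (fun x => if x.1 = ((0 : Cell d), i0) then 1 else 0)) (cube 0 (T + N)) =
      Finsupp.single ((0 : Cell d), i0) 1 := by
    ext x
    rw [rst_apply, hval, Finsupp.single_apply]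
    by_cases hx : x = ((0 : Cell d), i0)
    · subst hx
      have h1 : (0 : Cell d) ∈ cube (0 : Cell d) (T + N) := by
        rw [mem_cube, sub_zero, sn_zero]
        exact Nat.zero_le _
      simp [h1]
    · have hx' : ¬ ((0 : Cell d), i0) = x := fun h => hx h.symm
      simp [hx, hx']
  rw [hrst] at hsum
  have hy0 : y ((0 : Cell d), i0) = 0 := hy _ (by rw [sn_zero]; exact Nat.zero_le _)
  have hμ : μ.sum ((0 : Cell d), i0) = 1 := by
    have := DFunLike.congr_fun hsum ((0 : Cell d), i0)
    rw [Finsupp.add_apply, hy0, Finsupp.single_eq_same] at this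
    omega
  have hle : μ.sum ≤ Finsupp.single ((0 : Cell d), i0) 1 := by
    rw [← hsum]
    exact le_self_add
  have hex : ∃ u ∈ μ, u ((0 : Cell d), i0) ≠ 0 := by
    by_contra hc
    push Not at hc
    have h0 : ∀ ν : Multiset (Pat d q), (∀ u ∈ ν, u ((0 : Cell d), i0) = 0) →
        ν.sum ((0 : Cell d), i0) = 0 := by
      intro ν
      induction ν using Multiset.induction with
      | empty => intro _; simp
      | cons a ν ih =>
        intro h
        rw [Multiset.sum_cons, Finsupp.add_apply, h a (Multiset.mem_cons_self a ν),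
          ih (fun u hu => h u (Multiset.mem_cons_of_mem hu))]
    rw [h0 μ hc] at hμ
    exact absurd hμ (by decide)
  obtain ⟨u, huμ, hu⟩ := hex
  have hule : u ≤ Finsupp.single ((0 : Cell d), i0) 1 := by
    refine le_trans ?_ hle
    obtain ⟨ν, rfl⟩ := Multiset.exists_cons_of_mem huμ
    rw [Multiset.sum_cons]
    exact le_self_add
  have hueq : u = Finsupp.single ((0 : Cell d), i0) 1 := by
    ext x
    have h1 := hule x
    by_cases hx : x = ((0 : Cell d), i0)
    · subst hx
      rw [Finsupp.single_eq_same] at h1 ⊢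
      omega
    · have hx' : ¬ ((0 : Cell d), i0) = x := fun h => hx h.symm
      rw [Finsupp.single_apply, if_neg hx'] at h1 ⊢
      omega
  have htot := (hF u huμ).2.1
  rw [hueq, tot_single] at htot
  exact hi0 htot

end

end Pool.Agent.H48.MC
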